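import Pool.Agent.TH993.AC.Step

/-!
# A differentially closed field with two commuting derivations
-/

set_option autoImplicit false
namespace Pool.Agent.TH993.AC
open Pool.Agent.AC215 MvPolynomial

section limit
variable (F : ℕ → DF) (φ : ∀ n, (F n).K →+* (F (n + 1)).K)

/-- The transition maps of a tower. -/
noncomputable def tr (i j : ℕ) (h : i ≤ j) : (F i).K →+* (F j).K :=
  Nat.leRecOn (C := fun k => (F i).K →+* (F k).K) h (fun {k} g => (φ k).comp g) (RingHom.id _)

theorem tr_self (i : ℕ) (x : (F i).K) : tr F φ i i le_rfl x = x := by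
  rw [tr, Nat.leRecOn_self]
  rfl

theorem tr_succ (i j : ℕ) (h : i ≤ j) (x : (F i).K) :
    tr F φ i (j + 1) (h.trans (Nat.le_succ j)) x = φ j (tr F φ i j h x) := by
  rw [tr, Nat.leRecOn_succ h]
  rfl

theorem tr_trans (i j k : ℕ) (hij : i ≤ j) (hjk : j ≤ k) (x : (F i).K) :
    tr F φ j k hjk (tr F φ i j hij x) = tr F φ i k (hij.trans hjk) x := by
  induction k, hjk using Nat.le_induction with
  | base => rw [tr_self]
  | succ k hjk ih => rw [tr_succ F φ j k hjk, ih, tr_succ F φ i k (hij.trans hjk)]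

instance : DirectedSystem (fun i => (F i).K) (fun i j h => tr F φ i j h) where
  map_self := fun i x => tr_self F φ i x
  map_map := fun k j i hij hjk x => tr_trans F φ i j k hij hjk x

/-- The limit field. -/
abbrev Lim : Type := DirectLimit (fun i => (F i).K) (tr F φ)

/-- The canonical map of a stage to the limit. -/
noncomputable def io (n : ℕ) : (F n).K →+* Lim F φ where
  toFun := fun x => ⟦⟨n, x⟩⟧
  map_one' := (DirectLimit.one_def (G := fun i => (F i).K) (f := tr F φ) n).symm
  map_mul' := fun x y => (DirectLimit.mul_def (G := fun i => (F i).K) (f := tr F φ) n x y).symm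
  map_zero' := (DirectLimit.zero_def (G := fun i => (F i).K) (f := tr F φ) n).symm
  map_add' := fun x y => (DirectLimit.add_def (G := fun i => (F i).K) (f := tr F φ) n x y).symm

theorem io_tr (i j : ℕ) (h : i ≤ j) (x : (F i).K) : io F φ j (tr F φ i j h x) = io F φ i x :=
  DirectLimit.mk_apply (F := fun i => (F i).K) (f := tr F φ) i j x h

theorem io_succ (i : ℕ) (x : (F i).K) : io F φ (i + 1) (φ i x) = io F φ i x := by
  rw [← io_tr F φ i (i + 1) (Nat.le_succ i) x, tr_succ F φ i i le_rfl, tr_self]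

theorem io_surj (x : Lim F φ) : ∃ n, ∃ y, io F φ n y = x := by
  obtain ⟨n, y, h⟩ := DirectLimit.exists_eq_mk (tr F φ) x
  exact ⟨n, y, h.symm⟩

theorem io_surj2 (x y : Lim F φ) : ∃ n, ∃ a b, io F φ n a = x ∧ io F φ n b = y := by
  obtain ⟨n, a, b, h1, h2⟩ := DirectLimit.exists_eq_mk₂ (tr F φ) x y
  exact ⟨n, a, b, h1.symm, h2.symm⟩

variable {F φ} (hφ : ∀ n, IsD (φ n))
include hφ

theorem tr_isD (i j : ℕ) (h : i ≤ j) : IsD (tr F φ i j h) := by
  induction j, h using Nat.le_induction with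
  | base => exact ⟨fun a => by rw [tr_self, tr_self], fun a => by rw [tr_self, tr_self]⟩
  | succ j h ih =>
    exact ⟨fun a => by rw [tr_succ F φ i j h, tr_succ F φ i j h, ih.h1, (hφ j).h1],
      fun a => by rw [tr_succ F φ i j h, tr_succ F φ i j h, ih.h2, (hφ j).h2]⟩

omit hφ in
/-- A derivation of the limit from compatible derivations of the stages. -/
noncomputable def limDer (D : ∀ n, Der (F n).K)
    (hD : ∀ i j h x, tr F φ i j h (D i x) = D j (tr F φ i j h x)) : Der (Lim F φ) where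
  toFun := DirectLimit.map (tr F φ) (tr F φ) (fun i => D i) hD
  add' := fun a b => by
    obtain ⟨n, x, y, rfl, rfl⟩ := io_surj2 F φ a b
    change _ = io F φ n (D n x) + io F φ n (D n y)
    rw [← map_add, ← map_add, ← map_add]
    rfl
  leib' := fun a b => by
    obtain ⟨n, x, y, rfl, rfl⟩ := io_surj2 F φ a b
    change _ = io F φ n x * io F φ n (D n y) + io F φ n y * io F φ n (D n x)
    rw [← map_mul, ← map_mul, ← map_mul, ← map_add, ← Der.leib]
    rfl

omit hφ in
theorem limDer_io (D : ∀ n, Der (F n).K)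
    (hD : ∀ i j h x, tr F φ i j h (D i x) = D j (tr F φ i j h x)) (n : ℕ) (x : (F n).K) :
    limDer D hD (io F φ n x) = io F φ n (D n x) := rfl

/-- The differential structure of the limit. -/
@[instance_reducible] noncomputable def limDD : DD (Lim F φ) where
  q := (io F φ 0).comp DD.q
  d1 := limDer (fun _ => d1) (fun i j h x => (tr_isD hφ i j h).h1 x)
  d2 := limDer (fun _ => d2) (fun i j h x => (tr_isD hφ i j h).h2 x)
  comm := fun a => by
    obtain ⟨n, x, rfl⟩ := io_surj F φ a
    rw [limDer_io, limDer_io, limDer_io, limDer_io, dcomm]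

theorem io_isD (n : ℕ) : @IsD _ _ _ _ _ (limDD hφ) (io F φ n) := by
  let _ := limDD hφ
  exact ⟨fun _ => rfl, fun _ => rfl⟩

omit hφ in
theorem poly_stage (G : MvPolynomial V (Lim F φ)) :
    ∃ n, ∃ G' : MvPolynomial V (F n).K, map (io F φ n) G' = G := by
  induction G using MvPolynomial.induction_on with
  | C a =>
    obtain ⟨n, x, rfl⟩ := io_surj F φ a
    exact ⟨n, C x, map_C _ _⟩
  | add p q hp hq =>
    obtain ⟨n, p', rfl⟩ := hp
    obtain ⟨m, q', rfl⟩ := hq
    have h1 : ∀ (i j : ℕ) (h : i ≤ j) (r : MvPolynomial V (F i).K),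
        map (io F φ j) (map (tr F φ i j h) r) = map (io F φ i) r := by
      intro i j h r
      have h2 : (io F φ j).comp (tr F φ i j h) = io F φ i := RingHom.ext (io_tr F φ i j h)
      rw [map_map, h2]
    refine ⟨max n m, map (tr F φ n (max n m) (le_max_left _ _)) p' +
      map (tr F φ m (max n m) (le_max_right _ _)) q', ?_⟩
    rw [map_add, h1, h1]
  | mul_X p i hp =>
    obtain ⟨n, p', rfl⟩ := hp
    exact ⟨n, p' * X i, by rw [map_mul, map_X]⟩

theorem lim_closed (hz : ∀ n, ∀ G : MvPolynomial V (F n).K, (∀ c, G ≠ C c) →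
    ∃ e, evd (φ n) (fun _ => e) G = 0) : @DClosed (Lim F φ) _ (limDD hφ) := by
  let _ := limDD hφ
  intro G hG
  obtain ⟨n, G', rfl⟩ := poly_stage G
  have hG' : ∀ c, G' ≠ C c := by
    rintro c rfl
    exact hG _ (map_C _ _)
  obtain ⟨e, he⟩ := hz n G' hG'
  refine ⟨io F φ (n + 1) e, ?_⟩
  have h1 : (io F φ (n + 1)).comp (φ n) = io F φ n := by
    ext x
    exact io_succ F φ n x
  have h2 := evd_comp (φ n) (fun _ => e) (io F φ (n + 1)) (io_isD hφ (n + 1)) G'
  rw [he, map_zero, h1] at h2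
  rw [eval_map]
  exact h2.symm

end limit

section base

/-- The zero derivation. -/
def zDer (A : Type) [CommRing A] : Der A :=
  ⟨fun _ => 0, fun _ _ => (add_zero 0).symm, fun a b => by rw [mul_zero, mul_zero, add_zero]⟩

/-- The ring of polynomials in two variables with its partial derivatives. -/
@[instance_reducible] noncomputable def baseDD : DD (MvPolynomial (Fin 2) ℚ) where
  q := C
  d1 := mvDer (zDer ℚ) (fun i => if i = 0 then 1 else 0)
  d2 := mvDer (zDer ℚ) (fun i => if i = 1 then 1 else 0)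
  comm := fun p => by
    rw [← sub_eq_zero]
    refine mv_der_eq_zero (RingHom.id _) (fun p =>
      mvDer (zDer ℚ) (fun i => if i = 0 then 1 else 0)
        (mvDer (zDer ℚ) (fun i : Fin 2 => if i = 1 then 1 else 0) p) -
      mvDer (zDer ℚ) (fun i => if i = 1 then 1 else 0)
        (mvDer (zDer ℚ) (fun i : Fin 2 => if i = 0 then 1 else 0) p)) ?_ ?_ ?_ ?_ p
    · intro a b; simp; ring
    · intro a b; simp [Der.leib]; ring
    · intro a; simp only [mvDer_C]; exact sub_self _
    · intro i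
      simp only [mvDer_X]
      split_ifs <;> simp

theorem base : ∃ F : DF, ∃ t1 t2 : F.K, (d1 : Der F.K) t1 = 1 ∧ (d2 : Der F.K) t1 = 0 ∧
    (d1 : Der F.K) t2 = 0 ∧ (d2 : Der F.K) t2 = 1 := by
  let _ := baseDD
  let K := FractionRing (MvPolynomial (Fin 2) ℚ)
  let _ : DD K := fracDD (B := MvPolynomial (Fin 2) ℚ) K
  have hD : IsD (algebraMap (MvPolynomial (Fin 2) ℚ) K) := isD_frac (B := MvPolynomial (Fin 2) ℚ) K
  have e1 : ∀ i, (d1 : Der (MvPolynomial (Fin 2) ℚ)) (X i) = if i = 0 then 1 else 0 :=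
    fun i => mvDer_X _ _ _
  have e2 : ∀ i, (d2 : Der (MvPolynomial (Fin 2) ℚ)) (X i) = if i = 1 then 1 else 0 :=
    fun i => mvDer_X _ _ _
  refine ⟨⟨K⟩, algebraMap (MvPolynomial (Fin 2) ℚ) K (X 0),
    algebraMap (MvPolynomial (Fin 2) ℚ) K (X 1), ?_, ?_, ?_, ?_⟩
  · exact (hD.h1 _).symm.trans (by rw [e1, if_pos rfl, map_one])
  · exact (hD.h2 _).symm.trans (by rw [e2, if_neg (by decide), map_zero])
  · exact (hD.h1 _).symm.trans (by rw [e1, if_neg (by decide), map_zero])
  · exact (hD.h2 _).symm.trans (by rw [e2, if_pos rfl, map_one])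

end base

/-- The tower of iterated extensions. -/
def twr (nx : DF → DF) (F0 : DF) : ℕ → DF
  | 0 => F0
  | n + 1 => nx (twr nx F0 n)

/-- There is a field with two commuting derivations in which every non-constant differential
polynomial in one unknown has a zero, and which contains `t1`, `t2` with the derivatives of two
coordinates. -/
theorem exists_closed : ∃ (U : Type) (_ : Field U) (_ : DD U), DClosed U ∧ ∃ t1 t2 : U,
    (d1 : Der U) t1 = 1 ∧ (d2 : Der U) t1 = 0 ∧ (d1 : Der U) t2 = 0 ∧ (d2 : Der U) t2 = 1 := by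
  obtain ⟨F0, t1, t2, h11, h21, h12, h22⟩ := base
  choose nx ψ hψ hz using step
  let φ : ∀ n, (twr nx F0 n).K →+* (twr nx F0 (n + 1)).K := fun n => ψ (twr nx F0 n)
  have hφ : ∀ n, IsD (φ n) := fun n => hψ (twr nx F0 n)
  have hzz : ∀ n, ∀ G : MvPolynomial V (twr nx F0 n).K, (∀ c, G ≠ C c) →
    ∃ e, evd (φ n) (fun _ => e) G = 0 := fun n => hz (twr nx F0 n)
  let _ : DD (Lim (twr nx F0) φ) := limDD hφ
  have hio : IsD (io (twr nx F0) φ 0) := io_isD hφ 0
  refine ⟨Lim (twr nx F0) φ, inferInstance, inferInstance, lim_closed hφ hzz,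
    io (twr nx F0) φ 0 t1, io (twr nx F0) φ 0 t2, ?_, ?_, ?_, ?_⟩
  · exact (hio.h1 t1).symm.trans ((congrArg _ h11).trans (map_one _))
  · exact (hio.h2 t1).symm.trans ((congrArg _ h21).trans (map_zero _))
  · exact (hio.h1 t2).symm.trans ((congrArg _ h12).trans (map_zero _))
  · exact (hio.h2 t2).symm.trans ((congrArg _ h22).trans (map_one _))

end Pool.Agent.TH993.AC
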