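import Pool.Agent.TH993.AC.Lead

/-!
# A zero of one differential polynomial in an extension
-/

set_option autoImplicit false
namespace Pool.Agent.TH993.AC
open Pool.Agent.AC215 MvPolynomial

section sep
variable {F : Type} [Field F]

theorem exists_max (s : Finset V) (hs : s.Nonempty) : ∃ l ∈ s, ∀ x ∈ s, le x l := by
  obtain ⟨l, hl, hmax⟩ := s.exists_max_image (fun x : V => (toLex x.2 : ℕ ×ₗ ℕ)) hs
  refine ⟨l, hl, fun x hx => ?_⟩
  have := hmax x hx
  rw [Prod.Lex.toLex_le_toLex] at this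
  exact this

theorem totalDegree_pos_of_mem_vars {p : MvPolynomial V F} {l : V} (hl : l ∈ p.vars) :
    0 < p.totalDegree := by
  rw [mem_vars_iff_mem_support] at hl
  obtain ⟨m, hm, hlm⟩ := hl
  have h1 := le_totalDegree hm
  have h2 : m l ≤ m.sum fun _ e => e := by
    rw [Finsupp.sum]
    exact Finset.single_le_sum (f := fun i => m i) (fun _ _ => Nat.zero_le _) hlm
  have h3 : m l ≠ 0 := Finsupp.mem_support_iff.mp hlm
  omega

theorem pderiv_ne_zero [CharZero F] {p : MvPolynomial V F} {l : V} (hl : l ∈ p.vars) :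
    pderiv l p ≠ 0 := by
  rw [mem_vars_iff_mem_support] at hl
  obtain ⟨m, hm, hlm⟩ := hl
  intro h0
  have h1 := coeff_pderiv (i := l) p (m - Finsupp.single l 1)
  have hle : Finsupp.single l 1 ≤ m := by
    rw [Finsupp.single_le_iff]
    exact Nat.one_le_iff_ne_zero.mpr (Finsupp.mem_support_iff.mp hlm)
  rw [h0, coeff_zero, tsub_add_cancel_of_le hle] at h1
  rcases mul_eq_zero.mp h1.symm with h | h
  · exact (mem_support_iff.mp hm) h
  · have h2 : (((m - Finsupp.single l 1 : V →₀ ℕ) l + 1 : ℕ) : F) ≠ 0 := Nat.cast_ne_zero.mpr (by omega)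
    exact h2 (by push_cast; exact h)

theorem pderiv_degree_lt {p : MvPolynomial V F} {l : V} (hl : l ∈ p.vars) :
    (pderiv l p).totalDegree < p.totalDegree := by
  rw [totalDegree, Finset.sup_lt_iff (totalDegree_pos_of_mem_vars hl)]
  intro m hm
  rw [mem_support_iff, coeff_pderiv] at hm
  have h1 : m + Finsupp.single l 1 ∈ p.support := by
    rw [mem_support_iff]
    exact fun h => hm (by rw [h, zero_mul])
  have h2 := le_totalDegree h1
  have h3 : (m + Finsupp.single l 1).sum (fun _ e => e) = m.sum (fun _ e => e) + 1 := by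
    rw [Finsupp.sum_add_index' (fun _ => rfl) (fun _ _ _ => rfl), Finsupp.sum_single_index rfl]
  omega

theorem not_dvd_pderiv [CharZero F] {p : MvPolynomial V F} {l : V} (hl : l ∈ p.vars) :
    ¬ p ∣ pderiv l p := by
  intro h
  have := totalDegree_le_of_dvd_of_isDomain h (pderiv_ne_zero hl)
  exact absurd (pderiv_degree_lt hl) (by omega)

end sep

section construct
variable {F : Type} [Field F] [DD F]

/-- The lower terms of the derivatives of `g`. -/
noncomputable def T (g : MvPolynomial V F) (l : V) (i j : ℕ) : MvPolynomial V F :=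
  dd i j g - pderiv l g * X (sh (i, j) l)

/-- The variable `x` is a proper derivative of `l`. -/
def cond (l x : V) : Prop := l.2.1 ≤ x.2.1 ∧ l.2.2 ≤ x.2.2 ∧ 0 < (x.2.1 - l.2.1) + (x.2.2 - l.2.2)

variable {L : Type} [Field L]

open Classical in
/-- The values of the variables: forced on the proper derivatives of `l`. -/
noncomputable def yv (ψ0 : MvPolynomial V F →+* L) (g : MvPolynomial V F) (l : V) : V → L :=
  lt_wf.fix (fun x rec => if cond l x then
    - (eval₂Hom (ψ0.comp C) (fun x' => if h : lt x' x then rec x' h else 0)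
      (T g l (x.2.1 - l.2.1) (x.2.2 - l.2.2))) / ψ0 (pderiv l g) else ψ0 (X x))

theorem yv_of_not (ψ0 : MvPolynomial V F →+* L) (g : MvPolynomial V F) (l x : V)
    (h : ¬ cond l x) : yv ψ0 g l x = ψ0 (X x) := by
  rw [yv, WellFounded.fix_eq, if_neg h]

theorem yv_of_cond (ψ0 : MvPolynomial V F →+* L) (g : MvPolynomial V F) (l : V)
    (hg : g ∈ supported F {x | le x l}) (hS : ψ0 (pderiv l g) ≠ 0) (i j : ℕ) (hij : 0 < i + j) :
    ψ0 (pderiv l g) * yv ψ0 g l (sh (i, j) l) +
      eval₂Hom (ψ0.comp C) (yv ψ0 g l) (T g l i j) = 0 := by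
  have hc : cond l (sh (i, j) l) := by
    simp only [cond, sh_1, sh_2]; omega
  have e1 : (sh (i, j) l).2.1 - l.2.1 = i := by simp only [sh_1]; omega
  have e2 : (sh (i, j) l).2.2 - l.2.2 = j := by simp only [sh_2]; omega
  have h1 : yv ψ0 g l (sh (i, j) l) = - (eval₂Hom (ψ0.comp C) (yv ψ0 g l) (T g l i j)) /
      ψ0 (pderiv l g) := by
    conv_lhs => rw [yv, WellFounded.fix_eq, if_pos hc]
    rw [e1, e2]
    congr 2
    refine eval₂Hom_congr' rfl ?_ rfl
    intro x hx _
    have h2 := mem_supported.mp (dd_lead l g hg i j hij) hx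
    have h3 : lt x (sh (i, j) l) := h2
    rw [dif_pos h3]
    rfl
  rw [h1, mul_div_cancel₀ _ hS]
  ring

theorem hom_eq (ψ0 : MvPolynomial V F →+* L) (g : MvPolynomial V F) (l : V)
    (p : MvPolynomial V F) (hp : p ∈ supported F {x | le x l}) :
    eval₂Hom (ψ0.comp C) (yv ψ0 g l) p = ψ0 p := by
  refine hom_congr_vars ?_ ?_ rfl
  · ext a; simp
  · intro x hx _
    have h2 : le x l := mem_supported.mp hp hx
    rw [coe_eval₂Hom, eval₂_X, yv_of_not]
    intro hc
    simp only [cond, le] at hc h2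
    omega

theorem hom_dd (ψ0 : MvPolynomial V F →+* L) (g : MvPolynomial V F) (l : V)
    (hg : g ∈ supported F {x | le x l}) (hg0 : ψ0 g = 0) (hS : ψ0 (pderiv l g) ≠ 0) (i j : ℕ) :
    eval₂Hom (ψ0.comp C) (yv ψ0 g l) (dd i j g) = 0 := by
  rcases Nat.eq_zero_or_pos (i + j) with h | h
  · obtain ⟨rfl, rfl⟩ : i = 0 ∧ j = 0 := by omega
    rw [dd_zero_zero, hom_eq ψ0 g l g hg, hg0]
  · have h1 : dd i j g = pderiv l g * X (sh (i, j) l) + T g l i j := by rw [T]; ring
    rw [h1, map_add, map_mul, hom_eq ψ0 g l _ (pderiv_supp l _ g hg)]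
    have h2 := yv_of_cond ψ0 g l hg hS i j h
    rw [coe_eval₂Hom, eval₂_X]
    exact h2

end construct

section ext
variable {F : Type} [Field F] [DD F]

theorem charZero_of_DD : CharZero F := by
  have h : Function.Injective (DD.q : ℚ →+* F) := (DD.q : ℚ →+* F).injective
  exact charZero_of_injective_ringHom h

omit [DD F] in
theorem const_of_vars_empty {p : MvPolynomial V F} (h : ¬ p.vars.Nonempty) : ∃ c, p = C c := by
  rw [Finset.not_nonempty_iff_eq_empty] at h
  exact ⟨coeff 0 p, vars_eq_empty_iff_eq_C.mp h⟩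

/-- A non-constant differential polynomial has all its derivatives killed by a homomorphism to a
field. -/
theorem exists_hom (G : MvPolynomial V F) (hG : ∀ c, G ≠ C c) :
    ∃ (L : Type) (_ : Field L) (ψ : MvPolynomial V F →+* L) (g : MvPolynomial V F), g ∣ G ∧
      ∀ i j, ψ (dd i j g) = 0 := by
  have := charZero_of_DD (F := F)
  have hG0 : G ≠ 0 := fun h => hG 0 (by rw [h, C_0])
  have hGu : ¬ IsUnit G := by
    intro h
    obtain ⟨c, _, hc⟩ := (MvPolynomial.isUnit_iff_eq_C_of_isReduced).mp h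
    exact hG c hc
  obtain ⟨g, hirr, hdvd⟩ := WfDvdMonoid.exists_irreducible_factor hGu hG0
  have hprime : Prime g := hirr.prime
  have hne : g.vars.Nonempty := by
    by_contra h
    obtain ⟨c, hc⟩ := const_of_vars_empty h
    have hc0 : c ≠ 0 := fun h0 => hprime.ne_zero (by rw [hc, h0, C_0])
    exact hprime.not_isUnit (by rw [hc]; exact (isUnit_iff_ne_zero.mpr hc0).map C)
  obtain ⟨l, hl, hmax⟩ := exists_max g.vars hne
  have hsupp : g ∈ supported F {x | le x l} := by
    rw [mem_supported]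
    intro x hx
    exact hmax x hx
  have hI : (Ideal.span {g}).IsPrime := (Ideal.span_singleton_prime hprime.ne_zero).mpr hprime
  let L := FractionRing (MvPolynomial V F ⧸ Ideal.span {g})
  let ψ0 : MvPolynomial V F →+* L :=
    (algebraMap (MvPolynomial V F ⧸ Ideal.span {g}) L).comp (Ideal.Quotient.mk _)
  have hinj : Function.Injective (algebraMap (MvPolynomial V F ⧸ Ideal.span {g}) L) :=
    IsFractionRing.injective _ _
  have hker : ∀ p, ψ0 p = 0 ↔ g ∣ p := by
    intro p
    rw [← Ideal.mem_span_singleton, ← Ideal.Quotient.eq_zero_iff_mem]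
    exact map_eq_zero_iff _ hinj
  refine ⟨L, inferInstance, eval₂Hom (ψ0.comp C) (yv ψ0 g l), g, hdvd, ?_⟩
  intro i j
  exact hom_dd ψ0 g l hsupp ((hker g).mpr dvd_rfl)
    (fun h => not_dvd_pderiv hl ((hker _).mp h)) i j

/-- Every non-constant differential polynomial has a zero in a differential field extension. -/
theorem ext1 (G : MvPolynomial V F) (hG : ∀ c, G ≠ C c) :
    ∃ (E : Type) (_ : Field E) (_ : DD E) (φ : F →+* E), IsD φ ∧
      ∃ e : E, evd φ (fun _ => e) G = 0 := by
  obtain ⟨L, _, ψ, g, hdvd, hψ⟩ := exists_hom G hG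
  let P0 : Ideal (MvPolynomial V F) := RingHom.ker ψ
  have hP0 : P0.IsPrime := RingHom.ker_isPrime ψ
  let P : Ideal (MvPolynomial V F) := dcore P0
  have hP : P.IsPrime := dcore_prime P0
  have hgP : g ∈ P := (mem_dcore P0 g).mpr fun i j => hψ i j
  have hGP : G ∈ P := P.mem_of_dvd hdvd hgP
  let _ : DD (MvPolynomial V F ⧸ P) := quotDD P (dcore_stable1 P0) (dcore_stable2 P0)
  let E := FractionRing (MvPolynomial V F ⧸ P)
  let _ : DD E := fracDD (B := MvPolynomial V F ⧸ P) E
  let χ : MvPolynomial V F →+* E := (algebraMap (MvPolynomial V F ⧸ P) E).comp (Ideal.Quotient.mk P)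
  have hχ : IsD χ := IsD.comp (isD_frac (B := MvPolynomial V F ⧸ P) E)
    (isD_mk P (dcore_stable1 P0) (dcore_stable2 P0))
  refine ⟨E, inferInstance, inferInstance, χ.comp C, IsD.comp hχ isD_C, χ (X ((), 0, 0)), ?_⟩
  have h1 : evd (χ.comp C) (fun _ => χ (X ((), 0, 0))) = χ := by
    refine evd_ext (isD_evd (IsD.comp hχ isD_C) _) hχ ?_ ?_
    · intro a; simp
    · intro i; simp
  rw [h1]
  have h2 : Ideal.Quotient.mk P G = 0 := Ideal.Quotient.eq_zero_iff_mem.mpr hGP
  rw [RingHom.comp_apply, h2, map_zero]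

end ext

end Pool.Agent.TH993.AC
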