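import Pool.Agent.TH993.AC.Quot

/-!
# Leading derivatives of differential polynomials in one unknown
-/

set_option autoImplicit false
namespace Pool.Agent.TH993.AC
open Pool.Agent.AC215 MvPolynomial

/-- The variables of differential polynomials in one unknown. -/
abbrev V : Type := Unit × ℕ × ℕ

/-- The lexicographic order of the variables (strict form). -/
def lt (x y : V) : Prop := x.2.1 < y.2.1 ∨ (x.2.1 = y.2.1 ∧ x.2.2 < y.2.2)

/-- The lexicographic order of the variables. -/
def le (x y : V) : Prop := x.2.1 < y.2.1 ∨ (x.2.1 = y.2.1 ∧ x.2.2 ≤ y.2.2)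

theorem lt_wf : WellFounded lt := by
  have h : WellFounded (Prod.Lex (α := ℕ) (β := ℕ) (· < ·) (· < ·)) :=
    WellFounded.prod_lex wellFounded_lt wellFounded_lt
  have h2 := InvImage.wf (fun x : V => x.2) h
  refine Subrelation.wf ?_ h2
  intro x y hxy
  exact Prod.lex_def.mpr hxy

/-- The shift of a variable. -/
def sh (e : ℕ × ℕ) (x : V) : V := (x.1, x.2.1 + e.1, x.2.2 + e.2)

@[simp] theorem sh_1 (e : ℕ × ℕ) (x : V) : (sh e x).2.1 = x.2.1 + e.1 := rfl
@[simp] theorem sh_2 (e : ℕ × ℕ) (x : V) : (sh e x).2.2 = x.2.2 + e.2 := rfl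

theorem V_ext {x y : V} (h1 : x.2.1 = y.2.1) (h2 : x.2.2 = y.2.2) : x = y := by
  obtain ⟨_, a, b⟩ := x
  obtain ⟨_, c, d⟩ := y
  simp only at h1 h2
  rw [h1, h2]

section lead
variable {F : Type} [Field F]

theorem supp_mul {s : Set V} {p q : MvPolynomial V F} (hp : p ∈ supported F s)
    (hq : q ∈ supported F s) : p * q ∈ supported F s := mul_mem hp hq

theorem der_supp (D : Der (MvPolynomial V F)) (e : ℕ × ℕ) (hX : ∀ x, D (X x) = X (sh e x))
    (hC : ∀ a, ∃ b, D (C a) = C b) (s t : Set V) (hst : s ⊆ t) (hsh : ∀ x ∈ s, sh e x ∈ t)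
    (p : MvPolynomial V F) (hp : p ∈ supported F s) : D p ∈ supported F t := by
  refine Algebra.adjoin_induction (p := fun p _ => D p ∈ supported F t) ?_ ?_ ?_ ?_ hp
  · rintro _ ⟨x, hx, rfl⟩
    rw [hX]
    exact X_mem_supported.mpr (hsh x hx)
  · intro r
    obtain ⟨b, hb⟩ := hC r
    rw [algebraMap_eq, hb]
    exact (supported F t).algebraMap_mem b
  · intro x y _ _ hx hy
    rw [map_add]
    exact add_mem hx hy
  · intro x y hx' hy' hx hy
    rw [Der.leib]
    exact add_mem (mul_mem (supported_mono hst hx') hy) (mul_mem (supported_mono hst hy') hx)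

theorem der_lead (D : Der (MvPolynomial V F)) (e : ℕ × ℕ) (he : 0 < e.1 + e.2)
    (hX : ∀ x, D (X x) = X (sh e x)) (hC : ∀ a, ∃ b, D (C a) = C b) (l : V)
    (p : MvPolynomial V F) (hp : p ∈ supported F {x | le x l}) :
    D p - pderiv l p * X (sh e l) ∈ supported F {x | lt x (sh e l)} := by
  have hst : {x | le x l} ⊆ {x | lt x (sh e l)} := by
    intro x hx
    simp only [Set.mem_ofPred_eq, le, lt, sh_1, sh_2] at hx ⊢
    omega
  refine Algebra.adjoin_induction (p := fun p _ =>
    D p - pderiv l p * X (sh e l) ∈ supported F {x | lt x (sh e l)}) ?_ ?_ ?_ ?_ hp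
  · rintro _ ⟨x, hx, rfl⟩
    rw [hX]
    by_cases hxl : x = l
    · subst hxl
      rw [pderiv_X_self, one_mul, sub_self]
      exact zero_mem _
    · rw [pderiv_X_of_ne hxl, zero_mul, sub_zero]
      refine X_mem_supported.mpr ?_
      have h : ¬ (x.2.1 = l.2.1 ∧ x.2.2 = l.2.2) := fun h => hxl (V_ext h.1 h.2)
      simp only [Set.mem_ofPred_eq, le, lt, sh_1, sh_2] at hx ⊢
      omega
  · intro r
    obtain ⟨b, hb⟩ := hC r
    rw [algebraMap_eq, hb, pderiv_C, zero_mul, sub_zero]
    exact (supported F _).algebraMap_mem b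
  · intro x y _ _ hx hy
    have : D (x + y) - pderiv l (x + y) * X (sh e l) =
        (D x - pderiv l x * X (sh e l)) + (D y - pderiv l y * X (sh e l)) := by
      rw [map_add, map_add]; ring
    rw [this]
    exact add_mem hx hy
  · intro x y hx' hy' hx hy
    have : D (x * y) - pderiv l (x * y) * X (sh e l) =
        x * (D y - pderiv l y * X (sh e l)) + y * (D x - pderiv l x * X (sh e l)) := by
      rw [Der.leib, Derivation.leibniz, smul_eq_mul, smul_eq_mul]; ring
    rw [this]
    exact add_mem (mul_mem (supported_mono hst hx') hy) (mul_mem (supported_mono hst hy') hx)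

theorem pderiv_supp (l : V) (s : Set V) (p : MvPolynomial V F) (hp : p ∈ supported F s) :
    pderiv l p ∈ supported F s := by
  refine Algebra.adjoin_induction (p := fun p _ => pderiv l p ∈ supported F s) ?_ ?_ ?_ ?_ hp
  · rintro _ ⟨x, hx, rfl⟩
    by_cases hxl : x = l
    · subst hxl
      rw [pderiv_X_self]
      exact one_mem _
    · rw [pderiv_X_of_ne hxl]
      exact zero_mem _
  · intro r
    rw [algebraMap_eq, pderiv_C]
    exact zero_mem _
  · intro x y _ _ hx hy
    rw [map_add]
    exact add_mem hx hy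
  · intro x y hx' hy' hx hy
    rw [Derivation.leibniz, smul_eq_mul, smul_eq_mul]
    exact add_mem (mul_mem hx' hy) (mul_mem hy' hx)

/-- One more derivative keeps the shape `S * X_{l+μ}` plus lower terms. -/
theorem step_lead (D : Der (MvPolynomial V F)) (e : ℕ × ℕ) (he : 0 < e.1 + e.2)
    (hX : ∀ x, D (X x) = X (sh e x)) (hC : ∀ a, ∃ b, D (C a) = C b) (l : V)
    (g h : MvPolynomial V F) (hg : g ∈ supported F {x | le x l}) (m : ℕ × ℕ)
    (hm : 0 < m.1 + m.2)
    (hh : h - pderiv l g * X (sh m l) ∈ supported F {x | lt x (sh m l)}) :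
    D h - pderiv l g * X (sh (m + e) l) ∈ supported F {x | lt x (sh (m + e) l)} := by
  have hS := pderiv_supp l _ g hg
  have h1 : D (h - pderiv l g * X (sh m l)) ∈ supported F {x | lt x (sh (m + e) l)} := by
    refine der_supp D e hX hC _ _ ?_ ?_ _ hh
    · intro x hx
      simp only [Set.mem_ofPred_eq, lt, sh_1, sh_2, Prod.fst_add, Prod.snd_add] at hx ⊢
      omega
    · intro x hx
      simp only [Set.mem_ofPred_eq, lt, sh_1, sh_2, Prod.fst_add, Prod.snd_add] at hx ⊢
      omega
  have h2 : D (pderiv l g) ∈ supported F {x | lt x (sh (m + e) l)} := by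
    refine der_supp D e hX hC _ _ ?_ ?_ _ hS
    · intro x hx
      simp only [Set.mem_ofPred_eq, lt, le, sh_1, sh_2, Prod.fst_add, Prod.snd_add] at hx ⊢
      omega
    · intro x hx
      simp only [Set.mem_ofPred_eq, lt, le, sh_1, sh_2, Prod.fst_add, Prod.snd_add] at hx ⊢
      omega
  have h3 : (X (sh m l) : MvPolynomial V F) ∈ supported F {x | lt x (sh (m + e) l)} := by
    refine X_mem_supported.mpr ?_
    simp only [Set.mem_ofPred_eq, lt, sh_1, sh_2, Prod.fst_add, Prod.snd_add]
    omega
  have hsh : sh e (sh m l) = sh (m + e) l := by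
    refine V_ext ?_ ?_
    · simp only [sh_1, Prod.fst_add]; omega
    · simp only [sh_2, Prod.snd_add]; omega
  have h4 : D h - pderiv l g * X (sh (m + e) l) =
      D (h - pderiv l g * X (sh m l)) + X (sh m l) * D (pderiv l g) := by
    rw [map_sub, Der.leib, hX, hsh]; ring
  rw [h4]
  exact add_mem h1 (mul_mem h3 h2)

variable [DD F]

theorem d1_XX (x : V) : (d1 : Der (MvPolynomial V F)) (X x) = X (sh (1, 0) x) := d1_X x
theorem d2_XX (x : V) : (d2 : Der (MvPolynomial V F)) (X x) = X (sh (0, 1) x) := d2_X x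
theorem d1_CC (a : F) : ∃ b, (d1 : Der (MvPolynomial V F)) (C a) = C b := ⟨_, d1_C a⟩
theorem d2_CC (a : F) : ∃ b, (d2 : Der (MvPolynomial V F)) (C a) = C b := ⟨_, d2_C a⟩

theorem dd_lead (l : V) (g : MvPolynomial V F) (hg : g ∈ supported F {x | le x l}) (i j : ℕ)
    (hij : 0 < i + j) :
    dd i j g - pderiv l g * X (sh (i, j) l) ∈ supported F {x | lt x (sh (i, j) l)} := by
  have b1 := der_lead (d1 : Der (MvPolynomial V F)) (1, 0) (by simp) d1_XX d1_CC l g hg
  have b2 := der_lead (d2 : Der (MvPolynomial V F)) (0, 1) (by simp) d2_XX d2_CC l g hg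
  have hj : ∀ j, 0 < j → dd 0 j g - pderiv l g * X (sh (0, j) l) ∈
      supported F {x | lt x (sh (0, j) l)} := by
    intro j hj
    induction j with
    | zero => omega
    | succ j ih =>
      rcases Nat.eq_zero_or_pos j with h | h
      · subst h
        have := b2
        rw [← dd_zero_zero g, d2_dd, dd_zero_zero] at this
        exact this
      · have := step_lead (d2 : Der (MvPolynomial V F)) (0, 1) (by simp) d2_XX d2_CC l g _ hg
          (0, j) (by simpa using h) (ih h)
        rw [d2_dd] at this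
        exact this
  induction i with
  | zero => exact hj j (by omega)
  | succ i ih =>
    rcases Nat.eq_zero_or_pos (i + j) with h | h
    · obtain ⟨rfl, rfl⟩ : i = 0 ∧ j = 0 := by omega
      have := b1
      rw [← dd_zero_zero g, d1_dd, dd_zero_zero] at this
      exact this
    · have := step_lead (d1 : Der (MvPolynomial V F)) (1, 0) (by simp) d1_XX d1_CC l g _ hg
        (i, j) h (ih h)
      rw [d1_dd] at this
      exact this

end lead

end Pool.Agent.TH993.AC
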