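import Pool.Agent.AC215.DD

/-!
# Quotients by stable ideals, and the largest stable ideal inside a prime
-/

set_option autoImplicit false
namespace Pool.Agent.TH993.AC
open Pool.Agent.AC215 MvPolynomial

section quot
variable {A : Type*} [CommRing A]

/-- The ring homomorphism behind `quotDer`. -/
noncomputable def quotHom (D : Der A) (P : Ideal A) (h : ∀ a ∈ P, D a ∈ P) :
    A ⧸ P →+* DualNumber (A ⧸ P) :=
  Ideal.Quotient.lift P (homD D (Ideal.Quotient.mk P)) (fun a ha => by
    rw [homD_apply, Ideal.Quotient.eq_zero_iff_mem.mpr ha,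
      Ideal.Quotient.eq_zero_iff_mem.mpr (h a ha)]
    refine TrivSqZeroExt.ext ?_ ?_ <;> simp)

theorem quotHom_mk (D : Der A) (P : Ideal A) (h : ∀ a ∈ P, D a ∈ P) (a : A) :
    quotHom D P h (Ideal.Quotient.mk P a) =
      mkD (Ideal.Quotient.mk P a) (Ideal.Quotient.mk P (D a)) := by
  rw [quotHom, Ideal.Quotient.lift_mk, homD_apply]

/-- The derivation induced on the quotient by a stable ideal. -/
noncomputable def quotDer (D : Der A) (P : Ideal A) (h : ∀ a ∈ P, D a ∈ P) : Der (A ⧸ P) :=
  derOfHom (quotHom D P h) (fun x => by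
    obtain ⟨a, rfl⟩ := Ideal.Quotient.mk_surjective x
    rw [quotHom_mk, fst_mkD])

theorem quotDer_mk (D : Der A) (P : Ideal A) (h : ∀ a ∈ P, D a ∈ P) (a : A) :
    quotDer D P h (Ideal.Quotient.mk P a) = Ideal.Quotient.mk P (D a) := by
  rw [quotDer, derOfHom_apply, quotHom_mk, snd_mkD]

variable [DD A]

/-- The differential structure on the quotient by a stable ideal. -/
@[instance_reducible] noncomputable def quotDD (P : Ideal A) (h1 : ∀ a ∈ P, (d1 : Der A) a ∈ P)
    (h2 : ∀ a ∈ P, (d2 : Der A) a ∈ P) : DD (A ⧸ P) where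
  q := (Ideal.Quotient.mk P).comp DD.q
  d1 := quotDer d1 P h1
  d2 := quotDer d2 P h2
  comm := fun x => by
    obtain ⟨a, rfl⟩ := Ideal.Quotient.mk_surjective x
    rw [quotDer_mk, quotDer_mk, quotDer_mk, quotDer_mk, dcomm]

theorem isD_mk (P : Ideal A) (h1 : ∀ a ∈ P, (d1 : Der A) a ∈ P)
    (h2 : ∀ a ∈ P, (d2 : Der A) a ∈ P) :
    @IsD A (A ⧸ P) _ _ _ (quotDD P h1 h2) (Ideal.Quotient.mk P) := by
  let _ := quotDD P h1 h2
  exact ⟨fun a => (quotDer_mk _ P h1 a).symm, fun a => (quotDer_mk _ P h2 a).symm⟩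

end quot

section prime
variable {A : Type*} [CommRing A]

theorem leibniz (D : Der A) (n : ℕ) (a b : A) :
    D^[n] (a * b) = ∑ ij ∈ Finset.HasAntidiagonal.antidiagonal n, n.choose ij.1 • (D^[ij.1] a * D^[ij.2] b) := by
  induction n with
  | zero => simp
  | succ n ih =>
    rw [Finset.sum_antidiagonal_choose_succ_nsmul (fun i j => D^[i] a * D^[j] b),
      Function.iterate_succ_apply', ih, map_sum, ← Finset.sum_add_distrib]
    refine Finset.sum_congr rfl fun ij hij => ?_
    have hs : n.choose ij.2 = n.choose ij.1 := by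
      rw [Finset.HasAntidiagonal.mem_antidiagonal] at hij
      exact Nat.choose_symm_of_eq_add (by omega)
    rw [map_nsmul, Der.leib, hs, Function.iterate_succ_apply', Function.iterate_succ_apply',
      nsmul_add, mul_comm (D^[ij.2] b)]

/-- The elements all of whose iterated derivatives lie in a given ideal. -/
def core (D : Der A) (P : Ideal A) : Ideal A where
  carrier := {a | ∀ n, D^[n] a ∈ P}
  zero_mem' := fun n => by
    rw [iterate_map_zero]; exact P.zero_mem
  add_mem' := fun {a b} ha hb n => by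
    rw [iterate_map_add]; exact P.add_mem (ha n) (hb n)
  smul_mem' := fun c a ha n => by
    rw [smul_eq_mul, leibniz]
    exact P.sum_mem fun ij _ => P.nsmul_mem (P.mul_mem_left _ (ha _)) _

theorem mem_core (D : Der A) (P : Ideal A) (a : A) : a ∈ core D P ↔ ∀ n, D^[n] a ∈ P := Iff.rfl

theorem core_le (D : Der A) (P : Ideal A) : core D P ≤ P := fun a ha => ha 0

theorem core_stable (D : Der A) (P : Ideal A) (a : A) (ha : a ∈ core D P) : D a ∈ core D P :=
  fun n => by rw [← Function.iterate_succ_apply]; exact ha (n + 1)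

theorem core_prime (q : ℚ →+* A) (D : Der A) (P : Ideal A) [hP : P.IsPrime] :
    (core D P).IsPrime := by
  refine ⟨fun h => hP.ne_top (top_unique (h ▸ core_le D P)), ?_⟩
  intro a b hab
  by_contra hcon
  push Not at hcon
  obtain ⟨ha, hb⟩ := hcon
  classical
  have ha' : ∃ n, D^[n] a ∉ P := by
    by_contra h
    push Not at h
    exact ha h
  have hb' : ∃ n, D^[n] b ∉ P := by
    by_contra h
    push Not at h
    exact hb h
  set m := Nat.find ha' with hm
  set n := Nat.find hb' with hn
  have h1 := hab (m + n)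
  rw [leibniz, ← Finset.add_sum_erase _ _ (Finset.HasAntidiagonal.mem_antidiagonal.mpr (rfl : (m, n).1 + (m, n).2 = m + n))] at h1
  have h2 : ∑ ij ∈ (Finset.HasAntidiagonal.antidiagonal (m + n)).erase (m, n),
      (m + n).choose ij.1 • (D^[ij.1] a * D^[ij.2] b) ∈ P := by
    refine P.sum_mem fun ij hij => P.nsmul_mem ?_ _
    rw [Finset.mem_erase, Finset.HasAntidiagonal.mem_antidiagonal] at hij
    obtain ⟨hne, hs⟩ := hij
    rcases lt_trichotomy ij.1 m with h | h | h
    · exact P.mul_mem_right _ (not_not.mp (Nat.find_min ha' h))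
    · exact absurd (Prod.ext h (by simp only; omega)) hne
    · have h3 : ij.2 < n := by omega
      exact P.mul_mem_left _ (not_not.mp (Nat.find_min hb' h3))
  have h3 := (Ideal.add_mem_iff_left P h2).mp h1
  simp only at h3
  have h4 : D^[m] a * D^[n] b ∈ P := by
    have h5 : q (((m + n).choose m : ℚ)⁻¹) * ((m + n).choose m • (D^[m] a * D^[n] b)) =
        D^[m] a * D^[n] b := by
      rw [nsmul_eq_mul, ← mul_assoc, ← map_natCast q, ← map_mul, inv_mul_cancel₀, map_one, one_mul]
      have : 0 < (m + n).choose m := Nat.choose_pos (by omega)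
      exact_mod_cast this.ne'
    rw [← h5]
    exact P.mul_mem_left _ h3
  rcases hP.mem_or_mem h4 with h | h
  · exact Nat.find_spec ha' h
  · exact Nat.find_spec hb' h

variable [DD A]

/-- The largest differential ideal inside an ideal. -/
def dcore (P : Ideal A) : Ideal A := core (d1 : Der A) (core (d2 : Der A) P)

theorem mem_dcore (P : Ideal A) (a : A) : a ∈ dcore P ↔ ∀ i j, dd i j a ∈ P := by
  have hc : Function.Commute (d1 : Der A) (d2 : Der A) := fun a => dcomm a
  constructor
  · intro h i j
    have := h i j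
    rwa [← (hc.iterate_iterate i j) a] at this
  · intro h i j
    have := h i j
    rwa [dd, (hc.iterate_iterate i j) a] at this

theorem dcore_le (P : Ideal A) : dcore P ≤ P := fun a ha => ha 0 0

theorem dcore_prime (P : Ideal A) [P.IsPrime] : (dcore P).IsPrime := by
  have := core_prime DD.q (d2 : Der A) P
  exact core_prime DD.q (d1 : Der A) _

theorem dcore_stable1 (P : Ideal A) (a : A) (ha : a ∈ dcore P) : (d1 : Der A) a ∈ dcore P :=
  core_stable _ _ _ ha

theorem dcore_stable2 (P : Ideal A) (a : A) (ha : a ∈ dcore P) : (d2 : Der A) a ∈ dcore P := by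
  rw [mem_dcore] at ha ⊢
  intro i j
  have := ha i (j + 1)
  rwa [dd, Function.iterate_succ_apply] at this

end prime

end Pool.Agent.TH993.AC
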