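import Pool.Agent.TH993.AC.Ext

/-!
# Zeros of all non-constant differential polynomials in an extension
-/

set_option autoImplicit false
namespace Pool.Agent.TH993.AC
open Pool.Agent.AC215 MvPolynomial

section evdcomp
variable {A B C' : Type} [CommRing A] [CommRing B] [CommRing C'] [DD B] [DD C']

theorem evd_comp (φ : A →+* B) (e : Unit → B) (χ : B →+* C') (hχ : IsD χ)
    (G : MvPolynomial V A) : χ (evd φ e G) = evd (χ.comp φ) (fun i => χ (e i)) G := by
  rw [evd, evd, coe_eval₂Hom, coe_eval₂Hom, eval₂_comp_left]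
  congr 1
  funext x
  simp only [Function.comp_apply]
  exact hχ.dd _ _ _

omit [DD B] in
theorem evd_map (φ : A →+* B) (χ : B →+* C') (e : Unit → C') (G : MvPolynomial V A) :
    evd χ e (map φ G) = evd (χ.comp φ) e G := by
  rw [evd, evd, coe_eval₂Hom, coe_eval₂Hom, eval₂_map]

end evdcomp

theorem map_nonconst {F E : Type} [Field F] [Field E] (φ : F →+* E) (G : MvPolynomial V F)
    (hG : ∀ c, G ≠ C c) (c : E) : map φ G ≠ C c := by
  intro h
  refine hG (coeff 0 G) ?_
  ext m
  rw [coeff_C]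
  split_ifs with hm
  · rw [hm]
  · have h1 : coeff m (map φ G) = 0 := by rw [h, coeff_C, if_neg hm]
    rw [coeff_map] at h1
    exact (map_eq_zero φ).mp h1

/-- A differential field. -/
structure DF where
  K : Type
  [f : Field K]
  [d : DD K]

attribute [instance] DF.f DF.d

section step

theorem extList (F : DF) (l : List (MvPolynomial V F.K)) :
    ∃ (E : DF) (φ : F.K →+* E.K), IsD φ ∧ ∀ G ∈ l, (∀ c, G ≠ C c) →
      ∃ e : E.K, evd φ (fun _ => e) G = 0 := by
  induction l with
  | nil => exact ⟨F, RingHom.id _, IsD.id, fun G hG => by simp at hG⟩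
  | cons G l ih =>
    obtain ⟨E, φ, hφ, h⟩ := ih
    by_cases hG : ∀ c, G ≠ C c
    · obtain ⟨E', _, _, φ', hφ', e', he'⟩ := ext1 (map φ G) (map_nonconst φ G hG)
      refine ⟨⟨E'⟩, φ'.comp φ, hφ'.comp hφ, ?_⟩
      intro G' hG' hc
      rcases List.mem_cons.mp hG' with h1 | h1
      · subst h1
        refine ⟨e', ?_⟩
        rw [← evd_map]
        exact he'
      · obtain ⟨e, he⟩ := h G' h1 hc
        refine ⟨φ' e, ?_⟩
        rw [← evd_comp φ (fun _ => e) φ' hφ', he, map_zero]
    · refine ⟨E, φ, hφ, ?_⟩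
      intro G' hG' hc
      rcases List.mem_cons.mp hG' with h1 | h1
      · subst h1; exact absurd hc hG
      · exact h G' h1 hc

/-- The product of differential rings. -/
noncomputable instance piDD {I : Type} (E : I → DF) : DD (∀ s, (E s).K) where
  q := RingHom.pi fun _ => DD.q
  d1 := ⟨fun x s => d1 (x s), fun a b => by funext s; exact map_add _ _ _,
    fun a b => by funext s; exact Der.leib _ _ _⟩
  d2 := ⟨fun x s => d2 (x s), fun a b => by funext s; exact map_add _ _ _,
    fun a b => by funext s; exact Der.leib _ _ _⟩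
  comm := fun x => by funext s; exact dcomm _

theorem pi_d1 {I : Type} (E : I → DF) (x : ∀ s, (E s).K) (s : I) :
    (d1 : Der (∀ s, (E s).K)) x s = d1 (x s) := rfl
theorem pi_d2 {I : Type} (E : I → DF) (x : ∀ s, (E s).K) (s : I) :
    (d2 : Der (∀ s, (E s).K)) x s = d2 (x s) := rfl

theorem isD_pi {I : Type} (E : I → DF) (s : I) :
    IsD (Pi.evalRingHom (fun s => (E s).K) s) := ⟨fun _ => rfl, fun _ => rfl⟩

/-- The ideal of an ultrafilter. -/
def ulI {I : Type} (E : I → DF) (U : Ultrafilter I) : Ideal (∀ s, (E s).K) where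
  carrier := {x | ∀ᶠ s in U, x s = 0}
  zero_mem' := Filter.Eventually.of_forall fun _ => rfl
  add_mem' := fun {a b} ha hb => by
    filter_upwards [ha, hb] with s h1 h2
    rw [Pi.add_apply, h1, h2, add_zero]
  smul_mem' := fun c a ha => by
    filter_upwards [ha] with s h1
    rw [smul_eq_mul, Pi.mul_apply, h1, mul_zero]

theorem mem_ulI {I : Type} (E : I → DF) (U : Ultrafilter I) (x : ∀ s, (E s).K) :
    x ∈ ulI E U ↔ ∀ᶠ s in U, x s = 0 := Iff.rfl

theorem ulI_prime {I : Type} (E : I → DF) (U : Ultrafilter I) : (ulI E U).IsPrime := by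
  refine ⟨?_, ?_⟩
  · intro h
    have h1 : (1 : ∀ s, (E s).K) ∈ ulI E U := h ▸ Submodule.mem_top
    obtain ⟨s, hs⟩ := Filter.Eventually.exists ((mem_ulI E U _).mp h1)
    exact one_ne_zero hs
  · intro x y hxy
    have h1 : ∀ᶠ s in U, x s = 0 ∨ y s = 0 := by
      filter_upwards [(mem_ulI E U _).mp hxy] with s hs
      exact mul_eq_zero.mp hs
    exact Ultrafilter.eventually_or.mp h1

/-- In some extension every non-constant differential polynomial has a zero. -/
theorem step (F : DF) : ∃ (E : DF) (φ : F.K →+* E.K), IsD φ ∧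
    ∀ G : MvPolynomial V F.K, (∀ c, G ≠ C c) → ∃ e : E.K, evd φ (fun _ => e) G = 0 := by
  classical
  let I := Finset (MvPolynomial V F.K)
  have h := fun s : I => extList F s.toList
  choose E φ hφ hz using h
  let U : Ultrafilter I := Ultrafilter.of Filter.atTop
  have hU : (U : Filter I) ≤ Filter.atTop := Ultrafilter.of_le _
  let P := ulI E U
  have hP : P.IsPrime := ulI_prime E U
  have hs1 : ∀ a ∈ P, (d1 : Der (∀ s, (E s).K)) a ∈ P := by
    intro a ha
    have := (mem_ulI E U _).mp ha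
    refine (mem_ulI E U _).mpr ?_
    filter_upwards [this] with s hs
    rw [pi_d1, hs, map_zero]
  have hs2 : ∀ a ∈ P, (d2 : Der (∀ s, (E s).K)) a ∈ P := by
    intro a ha
    have := (mem_ulI E U _).mp ha
    refine (mem_ulI E U _).mpr ?_
    filter_upwards [this] with s hs
    rw [pi_d2, hs, map_zero]
  let _ : DD ((∀ s, (E s).K) ⧸ P) := quotDD P hs1 hs2
  let K := FractionRing ((∀ s, (E s).K) ⧸ P)
  let _ : DD K := fracDD (B := (∀ s, (E s).K) ⧸ P) K
  let χ : (∀ s, (E s).K) →+* K := (algebraMap ((∀ s, (E s).K) ⧸ P) K).comp (Ideal.Quotient.mk P)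
  have hχ : IsD χ := IsD.comp (isD_frac (B := (∀ s, (E s).K) ⧸ P) K) (isD_mk P hs1 hs2)
  let Φ : F.K →+* (∀ s, (E s).K) := RingHom.pi φ
  have hΦ : IsD Φ := ⟨fun a => by funext s; exact (hφ s).h1 a, fun a => by funext s; exact (hφ s).h2 a⟩
  refine ⟨⟨K⟩, χ.comp Φ, hχ.comp hΦ, ?_⟩
  intro G hG
  have h1 : ∀ s : I, ∃ e : (E s).K, G ∈ s → evd (φ s) (fun _ => e) G = 0 := by
    intro s
    by_cases hs : G ∈ s
    · obtain ⟨e, he⟩ := hz s G (Finset.mem_toList.mpr hs) hG
      exact ⟨e, fun _ => he⟩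
    · exact ⟨0, fun h => absurd h hs⟩
  choose e he using h1
  refine ⟨χ e, ?_⟩
  rw [← evd_comp Φ (fun _ => e) χ hχ]
  have h2 : evd Φ (fun _ => e) G ∈ P := by
    refine (mem_ulI E U _).mpr ?_
    have h3 : ∀ᶠ s : I in U, G ∈ s := by
      refine hU ?_
      refine Filter.mem_atTop_sets.mpr ⟨{G}, fun s hs => ?_⟩
      exact hs (Finset.mem_singleton_self G)
    filter_upwards [h3] with s hs
    have h4 := evd_comp Φ (fun _ => e) (Pi.evalRingHom (fun s => (E s).K) s) (isD_pi E s) G
    have h5 : (Pi.evalRingHom (fun s => (E s).K) s).comp Φ = φ s := rfl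
    rw [h5] at h4
    exact h4.trans (he s hs)
  have h6 : Ideal.Quotient.mk P (evd Φ (fun _ => e) G) = 0 := Ideal.Quotient.eq_zero_iff_mem.mpr h2
  rw [RingHom.comp_apply, h6, map_zero]

end step

end Pool.Agent.TH993.AC
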